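import Pool.Agent.Q21.TC.Fixed

/-!
# Smooth and admissible representations, and Tate cohomology of `σ`-fixed representations
-/

set_option autoImplicit false

namespace Pool.Agent.Q21.TC

open Finset

section

variable {k G V : Type*} [Field k] [Group G] [AddCommGroup V] [Module k V]

/-- A representation is smooth if every vector has an open stabiliser. -/
def IsSmooth [TopologicalSpace G] (ρ : Representation k G V) : Prop :=
  ∀ v : V, IsOpen {g : G | ρ g v = v}

/-- The subspace `V^K` of vectors fixed by the subgroup `K`. -/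
def fixedBy (ρ : Representation k G V) (K : Subgroup G) : Submodule k V where
  carrier := {v | ∀ g ∈ K, ρ g v = v}
  add_mem' {a b} ha hb g hg := by rw [map_add, ha g hg, hb g hg]
  zero_mem' g _ := map_zero _
  smul_mem' c v hv g hg := by rw [map_smul, hv g hg]

/-- A representation is admissible if it is smooth and `V^K` is finite-dimensional for every
compact open subgroup `K`. -/
def IsAdmissible [TopologicalSpace G] (ρ : Representation k G V) : Prop :=
  IsSmooth ρ ∧ ∀ K : Subgroup G, IsOpen (K : Set G) → IsCompact (K : Set G) →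
    FiniteDimensional k (fixedBy ρ K)

/-- `G^σ`, the subgroup of fixed points of an automorphism `σ`. -/
def fixedPoints (σ : G ≃* G) : Subgroup G where
  carrier := {g | σ g = g}
  mul_mem' {a b} ha hb := by
    change σ (a * b) = a * b
    rw [map_mul]
    exact congrArg₂ _ ha hb
  one_mem' := map_one σ
  inv_mem' {a} ha := by
    change σ a⁻¹ = a⁻¹
    rw [map_inv]
    exact congrArg _ ha

/-- If `P` and `Q` are stable under `ρ`, the representation on `P / (P ∩ Q)`. -/
def subquot (ρ : Representation k G V) (P Q : Submodule k V) (hP : ∀ g, ∀ v ∈ P, ρ g v ∈ P)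
    (hQ : ∀ g, ∀ v ∈ Q, ρ g v ∈ Q) : Representation k G (P ⧸ Q.submoduleOf P) where
  toFun g := Submodule.mapQ (Q.submoduleOf P) (Q.submoduleOf P) ((ρ g).restrict (hP g))
    (fun v hv => hQ g v hv)
  map_one' := by
    apply Submodule.linearMap_qext
    ext v
    simp [LinearMap.restrict_apply]
  map_mul' g h := by
    apply Submodule.linearMap_qext
    ext v
    change Submodule.Quotient.mk _ = Submodule.Quotient.mk _
    congr 1
    apply Subtype.ext
    change ρ (g * h) (v : V) = ρ g (ρ h v)
    rw [map_mul, Module.End.mul_apply]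

/-- `N = 1 + σ + ⋯ + σ^{p-1}` -/
def normEnd (p : ℕ) (S : Module.End k V) : Module.End k V := ∑ i ∈ range p, S ^ i

/-- `T⁰ = ker(1 - σ) / N V` -/
abbrev T0 (p : ℕ) (S : Module.End k V) : Type _ :=
  LinearMap.ker (1 - S) ⧸ (LinearMap.range (normEnd p S)).submoduleOf (LinearMap.ker (1 - S))

/-- `T¹ = ker N / (1 - σ) V` -/
abbrev T1 (p : ℕ) (S : Module.End k V) : Type _ :=
  LinearMap.ker (normEnd p S) ⧸ (LinearMap.range (1 - S)).submoduleOf (LinearMap.ker (normEnd p S))

/-- `S` is the action of `σ` in an extension of `ρ` to `G ⋊ ⟨σ⟩`, `σ` of order dividing `p`. -/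
structure Extends (p : ℕ) (σ : G ≃* G) (ρ : Representation k G V) (S : Module.End k V) : Prop where
  comm : ∀ g v, S (ρ g v) = ρ (σ g) (S v)
  pow : S ^ p = 1

variable {p : ℕ} {σ : G ≃* G} {ρ : Representation k G V} {S : Module.End k V}

theorem Extends.comm_fixed (h : Extends p σ ρ S) (g : fixedPoints σ) (v : V) :
    S (ρ g v) = ρ g (S v) := by rw [h.comm, show σ (g : G) = g from g.2]

theorem Extends.pow_comm_fixed (h : Extends p σ ρ S) (g : fixedPoints σ) (i : ℕ) (v : V) :
    (S ^ i) (ρ g v) = ρ g ((S ^ i) v) := by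
  induction i with
  | zero => rfl
  | succ i ih => rw [pow_succ', Module.End.mul_apply, ih, h.comm_fixed, Module.End.mul_apply]

theorem Extends.norm_comm_fixed (h : Extends p σ ρ S) (g : fixedPoints σ) (v : V) :
    normEnd p S (ρ g v) = ρ g (normEnd p S v) := by
  simp only [normEnd, LinearMap.sum_apply, map_sum, h.pow_comm_fixed]

/-- The representation of `G^σ` on `T⁰`. -/
def T0rep (h : Extends p σ ρ S) : Representation k (fixedPoints σ) (T0 p S) :=
  subquot (ρ.comp (fixedPoints σ).subtype) _ _
    (fun g v hv => by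
      rw [LinearMap.mem_ker, LinearMap.sub_apply, Module.End.one_apply, sub_eq_zero] at hv ⊢
      have := h.comm_fixed g v
      change ρ g v = S (ρ g v)
      rw [this, ← hv])
    (fun g v hv => by
      obtain ⟨w, rfl⟩ := hv
      exact ⟨ρ g w, h.norm_comm_fixed g w⟩)

/-- The representation of `G^σ` on `T¹`. -/
def T1rep (h : Extends p σ ρ S) : Representation k (fixedPoints σ) (T1 p S) :=
  subquot (ρ.comp (fixedPoints σ).subtype) _ _
    (fun g v hv => by
      rw [LinearMap.mem_ker] at hv ⊢
      have := h.norm_comm_fixed g v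
      change normEnd p S (ρ g v) = 0
      rw [this, hv, map_zero])
    (fun g v hv => by
      obtain ⟨w, rfl⟩ := hv
      refine ⟨ρ g w, ?_⟩
      have := h.comm_fixed g w
      change ρ g w - S (ρ g w) = ρ g (w - S w)
      rw [this, map_sub])

end

end Pool.Agent.Q21.TC
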