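import Pool.Agent.Q21.TC.Orbit

set_option autoImplicit false

namespace Pool.Agent.Q21.TC

open Finset Function Topology

variable {G : Type*} [Group G]

/-- the largest `σ`-stable subgroup of `U` -/
def stab (σ : G ≃* G) (U : Subgroup G) : Subgroup G where
  carrier := {g | ∀ i : ℕ, σ^[i] g ∈ U}
  mul_mem' {a b} ha hb i := by rw [iterate_map_mul]; exact U.mul_mem (ha i) (hb i)
  one_mem' i := by rw [iterate_map_one]; exact U.one_mem
  inv_mem' {a} ha i := by rw [iterate_map_inv]; exact U.inv_mem (ha i)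

theorem stab_le (σ : G ≃* G) (U : Subgroup G) : stab σ U ≤ U := fun _ hg => hg 0

theorem map_mem_stab {p : ℕ} [hp : Fact p.Prime] {σ : G ≃* G} (hσ : ∀ g, σ^[p] g = g)
    (U : Subgroup G) (g : G) : σ g ∈ stab σ U ↔ g ∈ stab σ U := by
  constructor
  · intro h i
    have h1 : g = σ^[p - 1] (σ g) := by
      conv_lhs => rw [← hσ g]
      rw [← iterate_succ_apply, Nat.succ_eq_add_one, Nat.sub_add_cancel hp.out.one_le]
    rw [h1, ← iterate_add_apply]
    exact h _
  · intro h i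
    rw [← iterate_succ_apply]
    exact h _

theorem iterate_mem {σ : G ≃* G} {U : Subgroup G} (hU : ∀ g, σ g ∈ U ↔ g ∈ U) (i : ℕ) (g : G) :
    σ^[i] g ∈ U ↔ g ∈ U := by
  induction i with
  | zero => rfl
  | succ i ih => rw [iterate_succ_apply', hU, ih]

variable [TopologicalSpace G]

theorem isOpen_stab {p : ℕ} [hp : Fact p.Prime] {σ : G ≃* G} (hc : Continuous σ)
    (hσ : ∀ g, σ^[p] g = g) (U : Subgroup G) (hU : IsOpen (U : Set G)) :
    IsOpen (stab σ U : Set G) := by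
  have h1 : (stab σ U : Set G) = ⋂ i ∈ (range p : Set ℕ), σ^[i] ⁻¹' (U : Set G) := by
    ext g
    simp only [Set.mem_iInter, Set.mem_preimage, SetLike.mem_coe]
    constructor
    · intro h i _
      exact h i
    · intro h i
      have hper : IsPeriodicPt σ p g := hσ g
      rw [← hper.iterate_mod_apply i]
      exact h _ (by simpa using Nat.mod_lt _ hp.out.pos)
  rw [h1]
  refine Set.Finite.isOpen_biInter (Finset.finite_toSet _) fun i _ => ?_
  exact hU.preimage (hc.iterate i)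

variable [IsTopologicalGroup G] {p : ℕ} [hp : Fact p.Prime]

/-- Every `σ`-fixed coset of `U'` in `U` contains a `σ`-fixed element, if `U` is a compact group of
order prime to `p`. -/
theorem exists_fixed_rep [T2Space G] {σ : G ≃* G} (hc : Continuous σ) (hσ : ∀ g, σ^[p] g = g)
    (hG : ∀ N ∈ 𝓝 (1 : G), ∃ W : Subgroup G, IsOpen (W : Set G) ∧ (W : Set G) ⊆ N)
    {U U' : Subgroup G} (hUc : IsCompact (U : Set G)) (hU' : IsOpen (U' : Set G)) (hle : U' ≤ U)
    (hst : ∀ g, σ g ∈ U' ↔ g ∈ U')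
    (hcop : ∀ W : Subgroup G, IsOpen (W : Set G) → W ≤ U → ¬ p ∣ W.relIndex U)
    {u : G} (hfix : u⁻¹ * σ u ∈ U') : ∃ w ∈ U', σ (u * w) = u * w := by
  classical
  let I := {W : Subgroup G // IsOpen (W : Set G) ∧ W ≤ U' ∧ ∀ g, σ g ∈ W ↔ g ∈ W}
  let C : I → Set G := fun W => {w | w ∈ U' ∧ (u * w)⁻¹ * σ (u * w) ∈ W.1}
  have hU'cl : IsClosed (U' : Set G) := Subgroup.isClosed_of_isOpen U' hU'
  have hCcl : ∀ W, IsClosed (C W) := by
    intro W
    have h1 : IsClosed (W.1 : Set G) := Subgroup.isClosed_of_isOpen W.1 W.2.1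
    have h2 : Continuous fun w : G => (u * w)⁻¹ * σ (u * w) := by fun_prop
    exact hU'cl.inter (h1.preimage h2)
  have hCco : ∀ W, IsCompact (C W) := fun W =>
    hUc.of_isClosed_subset (hCcl W) fun w hw => hle hw.1
  have hne : ∀ W, (C W).Nonempty := by
    rintro ⟨W, hWo, hWle, hWst⟩
    let τ : U' ⧸ W.subgroupOf U' → U' ⧸ W.subgroupOf U' :=
      Quotient.map' (fun w : U' => (⟨u⁻¹ * σ (u * w), by
        rw [map_mul, ← mul_assoc]
        exact U'.mul_mem hfix ((hst _).2 w.2)⟩ : U')) (by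
        intro a b hab
        rw [QuotientGroup.leftRel_apply, Subgroup.mem_subgroupOf] at hab ⊢
        have h3 : (u⁻¹ * σ (u * (a : G)))⁻¹ * (u⁻¹ * σ (u * (b : G))) = σ ((a : G)⁻¹ * b) := by
          simp only [map_mul, map_inv]
          group
        change (u⁻¹ * σ (u * (a : G)))⁻¹ * (u⁻¹ * σ (u * (b : G))) ∈ W
        rw [h3, hWst]
        exact hab)
    have hτ1 : ∀ (i : ℕ) (w : U') , ∃ w' : U', (w' : G) = u⁻¹ * σ^[i] (u * w) ∧
        τ^[i] (QuotientGroup.mk w) = QuotientGroup.mk w' := by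
      intro i w
      induction i with
      | zero => exact ⟨w, by simp, rfl⟩
      | succ i ih =>
        obtain ⟨w', hw', hτw'⟩ := ih
        refine ⟨⟨u⁻¹ * σ (u * w'), ?_⟩, ?_, ?_⟩
        · rw [map_mul, ← mul_assoc]
          exact U'.mul_mem hfix ((hst _).2 w'.2)
        · change u⁻¹ * σ (u * (w' : G)) = _
          rw [iterate_succ_apply', hw']
          simp
        · rw [iterate_succ_apply', hτw']
          rfl
    have hτ : τ^[p] = id := by
      funext x
      obtain ⟨w, rfl⟩ := QuotientGroup.mk_surjective x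
      obtain ⟨w', hw', h4⟩ := hτ1 p w
      rw [h4]
      change _ = QuotientGroup.mk w
      congr 1
      apply Subtype.ext
      rw [hw', hσ]
      group
    have hcard : ¬ p ∣ Nat.card (U' ⧸ W.subgroupOf U') := by
      intro h
      apply hcop W hWo (hWle.trans hle)
      rw [← Subgroup.relIndex_mul_relIndex W U' U hWle hle]
      exact Dvd.dvd.mul_right h _
    have hfin : Finite (U' ⧸ W.subgroupOf U') := by
      apply Nat.finite_of_card_ne_zero
      intro h
      apply hcard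
      rw [h]
      exact dvd_zero p
    obtain ⟨x, hx⟩ := exists_fixed hτ hcard
    obtain ⟨w, rfl⟩ := QuotientGroup.mk_surjective x
    have h5 : QuotientGroup.mk (s := W.subgroupOf U') (⟨u⁻¹ * σ (u * w), by
        rw [map_mul, ← mul_assoc]
        exact U'.mul_mem hfix ((hst _).2 w.2)⟩ : U') = QuotientGroup.mk w := hx
    rw [eq_comm, QuotientGroup.eq, Subgroup.mem_subgroupOf] at h5
    refine ⟨w, w.2, ?_⟩
    have h6 : (u * (w : G))⁻¹ * σ (u * w) = (w : G)⁻¹ * (u⁻¹ * σ (u * w)) := by group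
    rw [h6]
    exact h5
  have hI : Nonempty I := ⟨⟨U', hU', le_rfl, hst⟩⟩
  have hdir : Directed (· ⊇ ·) C := by
    rintro ⟨W₁, h1o, h1l, h1s⟩ ⟨W₂, h2o, h2l, h2s⟩
    refine ⟨⟨W₁ ⊓ W₂, h1o.inter h2o, inf_le_left.trans h1l, fun g => ?_⟩, ?_, ?_⟩
    · rw [Subgroup.mem_inf, Subgroup.mem_inf, h1s, h2s]
    · rintro w ⟨hw1, hw2⟩
      exact ⟨hw1, hw2.1⟩
    · rintro w ⟨hw1, hw2⟩
      exact ⟨hw1, hw2.2⟩
  obtain ⟨w, hw⟩ := IsCompact.nonempty_iInter_of_directed_nonempty_isCompact_isClosed C hdir hne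
    hCco hCcl
  rw [Set.mem_iInter] at hw
  refine ⟨w, (hw hI.some).1, ?_⟩
  have h7 : (u * w)⁻¹ * σ (u * w) = 1 := by
    by_contra hcon
    obtain ⟨W, hWo, hWs⟩ := hG {(u * w)⁻¹ * σ (u * w)}ᶜ
      (isOpen_compl_singleton.mem_nhds (fun h => hcon h.symm))
    have h8 := (hw ⟨stab σ (W ⊓ U'), isOpen_stab hc hσ _ (hWo.inter hU'),
      (stab_le σ _).trans inf_le_right, map_mem_stab hσ _⟩).2
    have h9 := hWs (stab_le σ _ h8).1
    exact h9 rfl
  exact (inv_mul_eq_one.1 h7).symm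

end Pool.Agent.Q21.TC
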