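import Pool.Agent.Q21.TC.Main

set_option autoImplicit false

namespace Pool.Agent.Q21.TC

open Finset Function Topology

section prime

variable {F : Type*} [NontriviallyNormedField F] [IsUltrametricDist F] [ProperSpace F]

theorem exists_nat_norm_lt : ∃ m : ℕ, m ≠ 0 ∧ ‖(m : F)‖ < 1 := by
  have hc : IsCompact (Metric.closedBall (0 : F) 1) := isCompact_closedBall 0 1
  have hx : ∀ n : ℕ, ((n : ℕ) : F) ∈ Metric.closedBall (0 : F) 1 := by
    intro n
    rw [mem_closedBall_zero_iff]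
    exact IsUltrametricDist.norm_natCast_le_one F n
  obtain ⟨a, _, φ, hφ, ha⟩ := hc.tendsto_subseq hx
  have hcau : CauchySeq ((fun n : ℕ => (n : F)) ∘ φ) := ha.cauchySeq
  obtain ⟨N, hN⟩ := Metric.cauchySeq_iff.1 hcau 1 one_pos
  have h1 := hN (N + 1) (by omega) N le_rfl
  have h2 : φ N < φ (N + 1) := hφ (by omega)
  refine ⟨φ (N + 1) - φ N, by omega, ?_⟩
  rw [dist_eq_norm] at h1
  rw [Nat.cast_sub h2.le]
  exact h1

theorem exists_prime_norm_lt : ∃ ℓ : ℕ, ℓ.Prime ∧ ‖(ℓ : F)‖ < 1 := by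
  obtain ⟨m, hm, hm1⟩ := exists_nat_norm_lt (F := F)
  induction m using Nat.recOnMul with
  | zero => exact absurd rfl hm
  | one => simp at hm1
  | prime ℓ hℓ => exact ⟨ℓ, hℓ, hm1⟩
  | mul a b ha hb =>
    rw [Nat.cast_mul, norm_mul] at hm1
    have ha0 : a ≠ 0 := left_ne_zero_of_mul hm
    have hb0 : b ≠ 0 := right_ne_zero_of_mul hm
    by_cases h : ‖(a : F)‖ < 1
    · exact ha ha0 h
    · refine hb hb0 ?_
      have h1 : ‖(a : F)‖ = 1 := le_antisymm (IsUltrametricDist.norm_natCast_le_one F a)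
        (not_lt.1 h)
      rwa [h1, one_mul] at hm1

end prime

section mat

set_option linter.unusedSectionVars false

variable {F : Type*} [NontriviallyNormedField F] [IsUltrametricDist F] {n : ℕ}

/-- all entries have norm at most `r` -/
def bd (A : Matrix (Fin n) (Fin n) F) (r : ℝ) : Prop := ∀ i j, ‖A i j‖ ≤ r

theorem bd.mono {A : Matrix (Fin n) (Fin n) F} {r s : ℝ} (h : bd A r) (hrs : r ≤ s) : bd A s :=
  fun i j => (h i j).trans hrs

theorem bd.add {A B : Matrix (Fin n) (Fin n) F} {r : ℝ} (hA : bd A r) (hB : bd B r) :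
    bd (A + B) r := fun i j => by
  rw [Matrix.add_apply]
  exact (IsUltrametricDist.norm_add_le_max _ _).trans (max_le (hA i j) (hB i j))

theorem bd.mul {A B : Matrix (Fin n) (Fin n) F} {r s : ℝ} (hr : 0 ≤ r) (hs : 0 ≤ s)
    (hA : bd A r) (hB : bd B s) : bd (A * B) (r * s) := fun i j => by
  rw [Matrix.mul_apply]
  refine IsUltrametricDist.norm_sum_le_of_forall_le_of_nonneg (mul_nonneg hr hs) fun k _ => ?_
  rw [norm_mul]
  exact mul_le_mul (hA i k) (hB k j) (norm_nonneg _) hr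

theorem bd.sum {ι : Type*} {s : Finset ι} {A : ι → Matrix (Fin n) (Fin n) F} {r : ℝ} (hr : 0 ≤ r)
    (h : ∀ i ∈ s, bd (A i) r) : bd (∑ i ∈ s, A i) r := by
  classical
  induction s using Finset.induction_on with
  | empty => intro i j; simpa using hr
  | insert a s ha ih =>
    rw [Finset.sum_insert ha]
    exact (h a (Finset.mem_insert_self a s)).add (ih fun i hi => h i (Finset.mem_insert_of_mem hi))

theorem bd_one : bd (1 : Matrix (Fin n) (Fin n) F) 1 := by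
  intro i j
  rw [Matrix.one_apply]
  split_ifs <;> simp

theorem bd_zero {r : ℝ} (hr : 0 ≤ r) : bd (0 : Matrix (Fin n) (Fin n) F) r := by
  intro i j
  simpa using hr

theorem bd.pow {A : Matrix (Fin n) (Fin n) F} {r : ℝ} (hr : 0 ≤ r) (hr1 : r ≤ 1) (hA : bd A r)
    (m : ℕ) : bd (A ^ (m + 1)) r := by
  induction m with
  | zero => simpa using hA
  | succ m ih =>
    rw [_root_.pow_succ]
    exact (ih.mul hr hr hA).mono (mul_le_of_le_one_right hr hr1)

theorem bd_natCast (m : ℕ) : bd (m : Matrix (Fin n) (Fin n) F) ‖(m : F)‖ := by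
  intro i j
  rw [Matrix.natCast_apply]
  split_ifs <;> simp

/-- `‖g^ℓ - 1‖ ≤ c ‖g - 1‖` -/
theorem bd_pow_prime {ℓ : ℕ} (hℓ : ℓ.Prime) {y : Matrix (Fin n) (Fin n) F} {t r : ℝ} (ht : 0 ≤ t)
    (htr : t ≤ r) (hr1 : r ≤ 1) (hy : bd y t) :
    bd ((1 + y) ^ ℓ - 1) (max ‖(ℓ : F)‖ r * t) := by
  have hr : 0 ≤ r := ht.trans htr
  have ht1 : t ≤ 1 := htr.trans hr1
  rw [Commute.add_pow_prime_eq' hℓ (Commute.one_left y)]
  have e : (1 : Matrix (Fin n) (Fin n) F) ^ ℓ + y ^ ℓ + (ℓ : Matrix (Fin n) (Fin n) F) *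
      ∑ k ∈ Ioo 0 ℓ, 1 ^ k * y ^ (ℓ - k) * ((ℓ.choose k / ℓ : ℕ) : Matrix (Fin n) (Fin n) F) - 1 =
      y ^ ℓ + (ℓ : Matrix (Fin n) (Fin n) F) *
      ∑ k ∈ Ioo 0 ℓ, 1 ^ k * y ^ (ℓ - k) * ((ℓ.choose k / ℓ : ℕ) : Matrix (Fin n) (Fin n) F) := by
    rw [one_pow]; abel
  rw [e]
  refine bd.add ?_ ?_
  · obtain ⟨m, rfl⟩ : ∃ m, ℓ = (m + 1) + 1 := ⟨ℓ - 2, by have := hℓ.two_le; omega⟩
    rw [_root_.pow_succ]
    refine ((hy.pow ht ht1 m).mul ht ht hy).mono ?_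
    exact mul_le_mul_of_nonneg_right (htr.trans (le_max_right _ _)) ht
  · have h1 : bd (∑ k ∈ Ioo 0 ℓ, 1 ^ k * y ^ (ℓ - k) *
        ((ℓ.choose k / ℓ : ℕ) : Matrix (Fin n) (Fin n) F)) t := by
      refine bd.sum ht fun k hk => ?_
      rw [mem_Ioo] at hk
      rw [one_pow, one_mul]
      obtain ⟨m, hm⟩ : ∃ m, ℓ - k = m + 1 := ⟨ℓ - k - 1, by omega⟩
      rw [hm]
      have h2 := (hy.pow ht ht1 m).mul ht zero_le_one
        ((bd_natCast (F := F) (n := n) (ℓ.choose k / ℓ)).mono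
          (IsUltrametricDist.norm_natCast_le_one F _))
      rwa [mul_one] at h2
    refine ((bd_natCast ℓ).mul (norm_nonneg _) ht h1).mono ?_
    exact mul_le_mul_of_nonneg_right (le_max_left _ _) ht

theorem bd_pow_prime_pow {ℓ : ℕ} (hℓ : ℓ.Prime) {y : Matrix (Fin n) (Fin n) F} {r : ℝ} (hr : 0 ≤ r)
    (hr1 : r ≤ 1) (hy : bd y r) (N : ℕ) :
    bd ((1 + y) ^ ℓ ^ N - 1) ((max ‖(ℓ : F)‖ r) ^ N * r) := by
  have hc0 : 0 ≤ max ‖(ℓ : F)‖ r := hr.trans (le_max_right _ _)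
  have hc1 : max ‖(ℓ : F)‖ r ≤ 1 := max_le (IsUltrametricDist.norm_natCast_le_one F _) hr1
  induction N with
  | zero => simpa using hy
  | succ N ih =>
    have h1 : (1 + y) ^ ℓ ^ (N + 1) = (1 + ((1 + y) ^ ℓ ^ N - 1)) ^ ℓ := by
      rw [add_sub_cancel, ← pow_mul, ← _root_.pow_succ]
    rw [h1]
    have h2 := bd_pow_prime hℓ (t := (max ‖(ℓ : F)‖ r) ^ N * r) (r := r)
      (mul_nonneg (pow_nonneg hc0 N) hr) (mul_le_of_le_one_left hr (pow_le_one₀ hc0 hc1)) hr1 ih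
    rw [← mul_assoc, ← _root_.pow_succ'] at h2
    exact h2

/-- the congruence subgroup `{g : ‖g - 1‖ ≤ r, ‖g⁻¹ - 1‖ ≤ r}` -/
def Kr (n : ℕ) (F : Type*) [NontriviallyNormedField F] [IsUltrametricDist F] (r : ℝ) (hr : 0 ≤ r)
    (hr1 : r ≤ 1) : Subgroup (GL (Fin n) F) where
  carrier := {g | bd ((g : Matrix (Fin n) (Fin n) F) - 1) r ∧
    bd (((g⁻¹ : GL (Fin n) F) : Matrix (Fin n) (Fin n) F) - 1) r}
  mul_mem' {a b} ha hb := by
    have key : ∀ A B : Matrix (Fin n) (Fin n) F, bd (A - 1) r → bd (B - 1) r →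
        bd (A * B - 1) r := by
      intro A B hA hB
      have e : A * B - 1 = ((A - 1) * (B - 1) + (A - 1)) + (B - 1) := by noncomm_ring
      rw [e]
      exact (((hA.mul hr hr hB).mono (mul_le_of_le_one_right hr hr1)).add hA).add hB
    refine ⟨?_, ?_⟩
    · rw [Units.val_mul]
      exact key _ _ ha.1 hb.1
    · rw [mul_inv_rev, Units.val_mul]
      exact key _ _ hb.2 ha.2
  one_mem' := by
    simp only [Set.mem_ofPred_eq, inv_one, Units.val_one, sub_self]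
    exact ⟨bd_zero hr, bd_zero hr⟩
  inv_mem' {a} ha := by
    simp only [Set.mem_ofPred_eq, inv_inv]
    exact ⟨ha.2, ha.1⟩

theorem mem_Kr {r : ℝ} {hr : 0 ≤ r} {hr1 : r ≤ 1} {g : GL (Fin n) F} : g ∈ Kr n F r hr hr1 ↔
    bd ((g : Matrix (Fin n) (Fin n) F) - 1) r ∧
    bd (((g⁻¹ : GL (Fin n) F) : Matrix (Fin n) (Fin n) F) - 1) r := Iff.rfl

theorem bd_of_mem_Kr {r : ℝ} {hr : 0 ≤ r} {hr1 : r ≤ 1} {g : GL (Fin n) F}
    (hg : g ∈ Kr n F r hr hr1) : bd (g : Matrix (Fin n) (Fin n) F) 1 := by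
  have h := (hg.1.mono hr1).add bd_one
  rwa [sub_add_cancel] at h

/-- conjugation -/
theorem conj_mem_Kr {r s : ℝ} {hr : 0 ≤ r} {hr1 : r ≤ 1} {hs : 0 ≤ s} {hs1 : s ≤ 1}
    {g h : GL (Fin n) F} (hg : g ∈ Kr n F r hr hr1) (hh : h ∈ Kr n F s hs hs1) :
    g * h * g⁻¹ ∈ Kr n F s hs hs1 := by
  have key : ∀ A : Matrix (Fin n) (Fin n) F, bd (A - 1) s →
      bd ((g : Matrix (Fin n) (Fin n) F) * A * ((g⁻¹ : GL (Fin n) F) :
        Matrix (Fin n) (Fin n) F) - 1) s := by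
    intro A hA
    have e : (g : Matrix (Fin n) (Fin n) F) * A * ((g⁻¹ : GL (Fin n) F) :
        Matrix (Fin n) (Fin n) F) - 1 = (g : Matrix (Fin n) (Fin n) F) * (A - 1) *
        ((g⁻¹ : GL (Fin n) F) : Matrix (Fin n) (Fin n) F) := by
      rw [mul_sub, sub_mul, mul_one, ← Units.val_mul, mul_inv_cancel, Units.val_one]
    rw [e]
    have h1 := ((bd_of_mem_Kr hg).mul zero_le_one hs hA).mul (mul_nonneg zero_le_one hs) zero_le_one
      (bd_of_mem_Kr ((Kr n F r hr hr1).inv_mem hg))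
    simpa using h1
  refine ⟨?_, ?_⟩
  · rw [Units.val_mul, Units.val_mul]
    exact key _ hh.1
  · have e : (g * h * g⁻¹)⁻¹ = g * h⁻¹ * g⁻¹ := by group
    rw [e, Units.val_mul, Units.val_mul]
    exact key _ hh.2

theorem isOpen_Kr {r : ℝ} {hr : 0 ≤ r} {hr1 : r ≤ 1} (hr0 : r ≠ 0) :
    IsOpen (Kr n F r hr hr1 : Set (GL (Fin n) F)) := by
  have h1 : (Kr n F r hr hr1 : Set (GL (Fin n) F)) =
      (⋂ i, ⋂ j, (fun g : GL (Fin n) F => (g : Matrix (Fin n) (Fin n) F) i j) ⁻¹'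
        (Metric.closedBall ((1 : Matrix (Fin n) (Fin n) F) i j) r)) ∩
      (⋂ i, ⋂ j, (fun g : GL (Fin n) F => ((g⁻¹ : GL (Fin n) F) : Matrix (Fin n) (Fin n) F) i j) ⁻¹'
        (Metric.closedBall ((1 : Matrix (Fin n) (Fin n) F) i j) r)) := by
    ext g
    simp only [SetLike.mem_coe, mem_Kr, bd, Matrix.sub_apply, Set.mem_inter_iff, Set.mem_iInter,
      Set.mem_preimage, Metric.mem_closedBall, dist_eq_norm]
  rw [h1]
  refine IsOpen.inter ?_ ?_
  · refine isOpen_iInter_of_finite fun i => isOpen_iInter_of_finite fun j => ?_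
    exact (IsUltrametricDist.isOpen_closedBall _ hr0).preimage
      (Units.continuous_val.matrix_elem i j)
  · refine isOpen_iInter_of_finite fun i => isOpen_iInter_of_finite fun j => ?_
    exact (IsUltrametricDist.isOpen_closedBall _ hr0).preimage
      ((Units.continuous_val.comp continuous_inv).matrix_elem i j)

theorem isCompact_Kr [ProperSpace F] {r : ℝ} {hr : 0 ≤ r} {hr1 : r ≤ 1} :
    IsCompact (Kr n F r hr hr1 : Set (GL (Fin n) F)) := by
  let B : Set (Matrix (Fin n) (Fin n) F) := {A | ∀ i j, ‖A i j - (1 : Matrix (Fin n) (Fin n) F) i j‖ ≤ r}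
  have hB : IsCompact B := by
    have h1 : IsCompact (Set.pi Set.univ fun i => Set.pi Set.univ fun j =>
      Metric.closedBall ((1 : Matrix (Fin n) (Fin n) F) i j) r) :=
      isCompact_univ_pi fun i => isCompact_univ_pi fun j => isCompact_closedBall _ _
    have h2 : B = (Set.pi Set.univ fun i => Set.pi Set.univ fun j =>
      Metric.closedBall ((1 : Matrix (Fin n) (Fin n) F) i j) r) := by
      ext A
      constructor
      · intro h i _ j _
        rw [Metric.mem_closedBall, dist_eq_norm]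
        exact h i j
      · intro h i j
        have := h i (Set.mem_univ _) j (Set.mem_univ _)
        rwa [Metric.mem_closedBall, dist_eq_norm] at this
    rw [h2]
    exact h1
  have hB' : IsCompact (MulOpposite.opHomeomorph '' B) := hB.image MulOpposite.opHomeomorph.continuous
  have h1 : (Kr n F r hr hr1 : Set (GL (Fin n) F)) =
      Units.embedProduct _ ⁻¹' (B ×ˢ (MulOpposite.opHomeomorph '' B)) := by
    ext g
    simp only [SetLike.mem_coe, mem_Kr, bd, Matrix.sub_apply, Set.mem_preimage]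
    constructor
    · rintro ⟨h1, h2⟩
      exact ⟨h1, _, h2, rfl⟩
    · rintro ⟨h1, x, hx, h2⟩
      refine ⟨h1, ?_⟩
      rw [← MulOpposite.op_injective h2]
      exact hx
  rw [h1]
  exact Units.isClosedEmbedding_embedProduct.isCompact_preimage (hB.prod hB')

theorem pi_nhds (c : Fin n → Fin n → F) (A : Set (Fin n → Fin n → F)) (hA : A ∈ 𝓝 c) :
    ∃ r > 0, ∀ M : Fin n → Fin n → F, (∀ i j, ‖M i j - c i j‖ ≤ r) → M ∈ A := by
  rw [nhds_pi, Filter.mem_pi] at hA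
  obtain ⟨I, _, t, ht, hI⟩ := hA
  have h2 : ∀ i, ∃ r > 0, ∀ v : Fin n → F, (∀ j, ‖v j - c i j‖ ≤ r) → v ∈ t i := by
    intro i
    have h3 := ht i
    rw [nhds_pi, Filter.mem_pi] at h3
    obtain ⟨J, _, u, hu, hJ⟩ := h3
    have h4 : ∀ j, ∃ r > 0, Metric.closedBall (c i j) r ⊆ u j :=
      fun j => Metric.nhds_basis_closedBall.mem_iff.1 (hu j)
    choose r hr hru using h4
    rcases isEmpty_or_nonempty (Fin n) with he | he
    · exact ⟨1, one_pos, fun v _ => hJ fun j _ => (he.false j).elim⟩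
    · obtain ⟨j₀, hj₀⟩ := Finite.exists_min r
      refine ⟨r j₀, hr j₀, fun v hv => hJ fun j _ => hru j ?_⟩
      rw [Metric.mem_closedBall, dist_eq_norm]
      exact (hv j).trans (hj₀ j)
  choose r hr hrt using h2
  rcases isEmpty_or_nonempty (Fin n) with he | he
  · exact ⟨1, one_pos, fun v _ => hI fun j _ => (he.false j).elim⟩
  · obtain ⟨i₀, hi₀⟩ := Finite.exists_min r
    refine ⟨r i₀, hr i₀, fun M hM => hI fun i _ => hrt i _ fun j => ?_⟩
    exact (hM i j).trans (hi₀ i)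

theorem exists_Kr_sub {N : Set (GL (Fin n) F)} (hN : N ∈ 𝓝 (1 : GL (Fin n) F)) :
    ∃ (r : ℝ) (hr : 0 < r) (hr1 : r ≤ 1 / 2),
      (Kr n F r hr.le (hr1.trans (by norm_num)) : Set (GL (Fin n) F)) ⊆ N := by
  have h1 : N ∈ Filter.comap (Units.embedProduct (Matrix (Fin n) (Fin n) F))
      (𝓝 (Units.embedProduct _ (1 : GL (Fin n) F))) := by
    rwa [← Units.isEmbedding_embedProduct.isInducing.nhds_eq_comap]
  rw [Units.embedProduct_apply, nhds_prod_eq, Filter.mem_comap] at h1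
  obtain ⟨T, hT, hTN⟩ := h1
  rw [Filter.mem_prod_iff] at hT
  obtain ⟨A, hA, B, hB, hAB⟩ := hT
  have key : ∀ A : Set (Matrix (Fin n) (Fin n) F), A ∈ 𝓝 (1 : Matrix (Fin n) (Fin n) F) →
      ∃ r > 0, ∀ M : Matrix (Fin n) (Fin n) F, bd (M - 1) r → M ∈ A := by
    intro A hA
    obtain ⟨r, hr, h⟩ := pi_nhds (fun i j => (1 : Matrix (Fin n) (Fin n) F) i j) A hA
    exact ⟨r, hr, fun M hM => h M hM⟩
  obtain ⟨r₁, hr₁, h₁⟩ := key A hA
  have hB' : MulOpposite.op ⁻¹' B ∈ 𝓝 (1 : Matrix (Fin n) (Fin n) F) := by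
    have h5 : ContinuousAt (MulOpposite.op : Matrix (Fin n) (Fin n) F → _) 1 :=
      MulOpposite.continuous_op.continuousAt
    apply h5
    simpa using hB
  obtain ⟨r₂, hr₂, h₂⟩ := key _ hB'
  refine ⟨min (min r₁ r₂) (1 / 2), lt_min (lt_min hr₁ hr₂) (by norm_num), min_le_right _ _, ?_⟩
  intro g hg
  apply hTN
  apply hAB
  refine ⟨?_, ?_⟩
  · exact h₁ _ (hg.1.mono ((min_le_left _ _).trans (min_le_left _ _)))
  · exact h₂ _ (hg.2.mono ((min_le_left _ _).trans (min_le_right _ _)))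

/-- for `g` in the congruence subgroup `K_{1/2}`, `g^(ℓ^N)` is in `K_s` for large `N` -/
theorem pow_mem_Kr {ℓ : ℕ} (hℓ : ℓ.Prime) (hℓ1 : ‖(ℓ : F)‖ < 1) {g : GL (Fin n) F}
    (hg : g ∈ Kr n F (1 / 2) (by norm_num) (by norm_num)) {s : ℝ} (hs : 0 < s) (hs1 : s ≤ 1) :
    ∃ N : ℕ, g ^ ℓ ^ N ∈ Kr n F s hs.le hs1 := by
  have hc1 : max ‖(ℓ : F)‖ (1 / 2 : ℝ) < 1 := max_lt hℓ1 (by norm_num)
  have hc0 : 0 ≤ max ‖(ℓ : F)‖ (1 / 2 : ℝ) := (norm_nonneg _).trans (le_max_left _ _)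
  obtain ⟨N, hN⟩ := exists_pow_lt_of_lt_one hs hc1
  have hb : (max ‖(ℓ : F)‖ (1 / 2 : ℝ)) ^ N * (1 / 2) ≤ s := by
    have : 0 ≤ (max ‖(ℓ : F)‖ (1 / 2 : ℝ)) ^ N := pow_nonneg hc0 N
    linarith
  have key : ∀ A : Matrix (Fin n) (Fin n) F, bd (A - 1) (1 / 2 : ℝ) → bd (A ^ ℓ ^ N - 1) s := by
    intro A hA
    have h1 := bd_pow_prime_pow hℓ (by norm_num) (by norm_num) hA N
    rw [add_sub_cancel] at h1
    exact h1.mono hb
  refine ⟨N, ?_, ?_⟩
  · rw [Units.val_pow_eq_pow_val]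
    exact key _ hg.1
  · rw [← inv_pow, Units.val_pow_eq_pow_val]
    exact key _ hg.2

end mat

section closed

variable {F : Type*} [NontriviallyNormedField F] [IsUltrametricDist F] [ProperSpace F] {n : ℕ}
  (G : Subgroup (GL (Fin n) F)) {p : ℕ} [hp : Fact p.Prime]

theorem half0 : (0 : ℝ) ≤ 1 / 2 := by norm_num

theorem half1 : (1 / 2 : ℝ) ≤ 1 := by norm_num

/-- the compact open subgroup `G ∩ K_{1/2}` of `G` -/
noncomputable def K0 : Subgroup G := (Kr n F (1 / 2) half0 half1).subgroupOf G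

omit [ProperSpace F] in
theorem isOpen_K0 : IsOpen (K0 G : Set G) :=
  (isOpen_Kr (hr := half0) (hr1 := half1) (by norm_num)).preimage continuous_subtype_val

theorem isCompact_K0 (hG : IsClosed (G : Set (GL (Fin n) F))) : IsCompact (K0 G : Set G) :=
  hG.isClosedEmbedding_subtypeVal.isCompact_preimage (isCompact_Kr (hr := half0) (hr1 := half1))

omit [ProperSpace F] in
theorem basis_G {N : Set G} (hN : N ∈ 𝓝 (1 : G)) : ∃ (r : ℝ) (hr : 0 < r) (hr1 : r ≤ 1 / 2),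
    (((Kr n F r hr.le (hr1.trans (by norm_num))).subgroupOf G : Subgroup G) : Set G) ⊆ N := by
  rw [nhds_subtype_eq_comap, Filter.mem_comap] at hN
  obtain ⟨T, hT, hTN⟩ := hN
  obtain ⟨r, hr, hr1, h⟩ := exists_Kr_sub hT
  exact ⟨r, hr, hr1, fun g hg => hTN (h hg)⟩

/-- open subgroups of `K0` have index prime to `p` -/
theorem cop_K0 (hG : IsClosed (G : Set (GL (Fin n) F))) (hpF : ‖(p : F)‖ = 1) (W : Subgroup G)
    (hWo : IsOpen (W : Set G)) (hWK : W ≤ K0 G) : ¬ p ∣ W.relIndex (K0 G) := by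
  obtain ⟨ℓ, hℓ, hℓ1⟩ := exists_prime_norm_lt (F := F)
  obtain ⟨s, hs, hs1, hsW⟩ := basis_G G (hWo.mem_nhds W.one_mem)
  set A : Subgroup G := (Kr n F s hs.le (hs1.trans (by norm_num))).subgroupOf G with hA
  have hAW : A ≤ W := hsW
  have hAo : IsOpen (A : Set G) := (isOpen_Kr (hr := hs.le) (hr1 := hs1.trans (by norm_num))
    hs.ne').preimage continuous_subtype_val
  intro hdvd
  have h1 : p ∣ A.relIndex (K0 G) := by
    rw [← Subgroup.relIndex_mul_relIndex A W (K0 G) hAW hWK]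
    exact Dvd.dvd.mul_left hdvd _
  have hnorm : (A.subgroupOf (K0 G)).Normal := by
    refine ⟨fun a ha g => ?_⟩
    rw [Subgroup.mem_subgroupOf] at ha ⊢
    have h2 := conj_mem_Kr (g := ((g : G) : GL (Fin n) F)) (h := ((a : G) : GL (Fin n) F))
      (hr := half0) (hr1 := half1) (hs := hs.le) (hs1 := hs1.trans (by norm_num)) g.2 ha
    exact h2
  have hcs : CompactSpace (K0 G) := isCompact_iff_compactSpace.1 (isCompact_K0 G hG)
  have hfin : Finite (K0 G ⧸ A.subgroupOf (K0 G)) :=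
    Subgroup.quotient_finite_of_isOpen _ (hAo.preimage continuous_subtype_val)
  obtain ⟨x, hx⟩ := exists_prime_orderOf_dvd_card' (G := K0 G ⧸ A.subgroupOf (K0 G)) p h1
  obtain ⟨g, rfl⟩ := QuotientGroup.mk_surjective x
  obtain ⟨N, hN⟩ := pow_mem_Kr (F := F) (n := n) hℓ hℓ1 (g := ((g : G) : GL (Fin n) F)) g.2 hs
    (hs1.trans (by norm_num))
  have h3 : (QuotientGroup.mk g : K0 G ⧸ A.subgroupOf (K0 G)) ^ ℓ ^ N = 1 := by
    rw [← QuotientGroup.mk_pow, QuotientGroup.eq_one_iff, Subgroup.mem_subgroupOf]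
    exact hN
  have h4 : p ∣ ℓ ^ N := by
    rw [← hx]
    exact orderOf_dvd_of_pow_eq_one h3
  have h5 : p = ℓ := (Nat.prime_dvd_prime_iff_eq hp.out hℓ).1 (hp.out.dvd_of_dvd_pow h4)
  rw [← h5, hpF] at hℓ1
  exact lt_irrefl _ hℓ1

end closed

end Pool.Agent.Q21.TC
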