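import Pool.Agent.Q21.TC.Defs

set_option autoImplicit false

namespace Pool.Agent.Q21.TC

open Finset Function Topology

variable {k G V : Type*} [Field k] [Group G] [AddCommGroup V] [Module k V]

section avg

variable (ρ : Representation k G V) (U U' : Subgroup G)

/-- `f(u U') = ρ(u) v` -/
noncomputable def fF (v : V) (x : U ⧸ U'.subgroupOf U) : V := ρ ((Quotient.out x : U) : G) v

variable {ρ U U'}

theorem fF_mk {v : V} (hv : ∀ g ∈ U', ρ g v = v) (u : U) :
    fF ρ U U' v (QuotientGroup.mk u) = ρ (u : G) v := by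
  unfold fF
  have h1 : QuotientGroup.mk (s := U'.subgroupOf U)
      (Quotient.out (QuotientGroup.mk u : U ⧸ U'.subgroupOf U)) = QuotientGroup.mk u :=
    Quotient.out_eq _
  set o := (Quotient.out (QuotientGroup.mk u : U ⧸ U'.subgroupOf U)) with ho
  rw [eq_comm, QuotientGroup.eq, Subgroup.mem_subgroupOf] at h1
  have h2 : (o : G) = (u : G) * ((u : G)⁻¹ * o) := by group
  rw [h2, map_mul, Module.End.mul_apply]
  congr 1
  exact hv _ h1

variable (ρ U U') in
/-- the (unnormalised) average of `v` over `U/U'` -/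
noncomputable def avg [Fintype (U ⧸ U'.subgroupOf U)] (v : V) : V := ∑ x, fF ρ U U' v x

theorem avg_mem [Fintype (U ⧸ U'.subgroupOf U)] {v : V} (hv : ∀ g ∈ U', ρ g v = v) :
    avg ρ U U' v ∈ fixedBy ρ U := by
  intro g hg
  unfold avg
  rw [map_sum]
  refine Fintype.sum_equiv (MulAction.toPerm (⟨g, hg⟩ : U)) _ _ fun x => ?_
  obtain ⟨u, rfl⟩ := QuotientGroup.mk_surjective x
  rw [fF_mk hv]
  have h1 : (MulAction.toPerm (⟨g, hg⟩ : U)) (QuotientGroup.mk u : U ⧸ U'.subgroupOf U) =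
      QuotientGroup.mk ((⟨g, hg⟩ : U) * u) := rfl
  rw [h1, fF_mk hv]
  change ρ g (ρ (u : G) v) = ρ (g * u) v
  rw [map_mul, Module.End.mul_apply]

end avg

section tau

variable {p : ℕ} [hp : Fact p.Prime] {σ : G ≃* G} {U U' : Subgroup G}

/-- the action of `σ` on `U/U'` -/
def tau (hU : ∀ g, σ g ∈ U ↔ g ∈ U) (hU' : ∀ g, σ g ∈ U' ↔ g ∈ U') :
    U ⧸ U'.subgroupOf U → U ⧸ U'.subgroupOf U :=
  Quotient.map' (fun u : U => (⟨σ u, (hU _).2 u.2⟩ : U)) (by
    intro a b hab
    rw [QuotientGroup.leftRel_apply, Subgroup.mem_subgroupOf] at hab ⊢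
    change (σ a)⁻¹ * σ b ∈ U'
    rw [← map_inv, ← map_mul, hU']
    exact hab)

variable (hU : ∀ g, σ g ∈ U ↔ g ∈ U) (hU' : ∀ g, σ g ∈ U' ↔ g ∈ U')

theorem tau_mk (u : U) : tau hU hU' (QuotientGroup.mk u) =
    QuotientGroup.mk (⟨σ u, (hU _).2 u.2⟩ : U) := rfl

theorem tau_iterate_mk (i : ℕ) (u : U) : (tau hU hU')^[i] (QuotientGroup.mk u) =
    QuotientGroup.mk (⟨σ^[i] u, (iterate_mem hU i _).2 u.2⟩ : U) := by
  induction i with
  | zero => rfl
  | succ i ih =>
    rw [iterate_succ_apply', ih, tau_mk]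
    congr 1
    apply Subtype.ext
    change σ (σ^[i] u) = σ^[i + 1] u
    rw [iterate_succ_apply']

theorem tau_iterate_p (hσ : ∀ g, σ^[p] g = g) : (tau hU hU')^[p] = id := by
  funext x
  obtain ⟨u, rfl⟩ := QuotientGroup.mk_surjective x
  rw [tau_iterate_mk]
  change _ = QuotientGroup.mk u
  congr 1
  exact Subtype.ext (hσ u)

end tau

section abstract

set_option linter.unusedSectionVars false

variable [TopologicalSpace G] [IsTopologicalGroup G] {p : ℕ} [hp : Fact p.Prime] [CharP k p]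
  {σ : G ≃* G} {ρ : Representation k G V} {S : Module.End k V}

theorem isOpen_stabilizer {ρ : Representation k G V} {W : Subgroup G} (hW : IsOpen (W : Set G))
    {v : V} (h : ∀ g ∈ W, ρ g v = v) : IsOpen {g : G | ρ g v = v} := by
  let T : Subgroup G :=
    { carrier := {g : G | ρ g v = v}
      mul_mem' := fun {a b} ha hb => by
        change ρ (a * b) v = v
        rw [map_mul, Module.End.mul_apply, show ρ b v = v from hb, show ρ a v = v from ha]
      one_mem' := by simp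
      inv_mem' := fun {a} ha => by
        change ρ a⁻¹ v = v
        conv_lhs => rw [← show ρ a v = v from ha]
        rw [← Module.End.mul_apply, ← map_mul]
        simp }
  exact Subgroup.isOpen_mono (H₁ := W) (H₂ := T) (fun g hg => h g hg) hW

variable (ρ) in
/-- the stabiliser of `v` -/
def stabilizer (v : V) : Subgroup G where
  carrier := {g : G | ρ g v = v}
  mul_mem' {a b} ha hb := by
    change ρ (a * b) v = v
    rw [map_mul, Module.End.mul_apply, show ρ b v = v from hb, show ρ a v = v from ha]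
  one_mem' := by simp
  inv_mem' {a} ha := by
    change ρ a⁻¹ v = v
    conv_lhs => rw [← show ρ a v = v from ha]
    rw [← Module.End.mul_apply, ← map_mul]
    simp

/-- The general criterion. -/
theorem isAdmissible_subquot [T2Space G] (hc : Continuous σ) (hσ : ∀ g, σ^[p] g = g)
    (hG : ∀ N ∈ 𝓝 (1 : G), ∃ W : Subgroup G, IsOpen (W : Set G) ∧ (W : Set G) ⊆ N)
    (K₀ : Subgroup G) (hK₀ : IsOpen (K₀ : Set G)) (hK₀c : IsCompact (K₀ : Set G))
    (hρ : IsAdmissible ρ) (P Q : Submodule k V)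
    (hP : ∀ g, ∀ v ∈ P, (ρ.comp (fixedPoints σ).subtype) g v ∈ P)
    (hQ : ∀ g, ∀ v ∈ Q, (ρ.comp (fixedPoints σ).subtype) g v ∈ Q)
    (star : ∀ U : Subgroup G, IsOpen (U : Set G) → U ≤ K₀ → (∀ g, σ g ∈ U ↔ g ∈ U) →
      ∀ v ∈ P, (∀ u ∈ U, σ u = u → ρ u v - v ∈ Q) →
      ∃ e ∈ P, e ∈ fixedBy ρ U ∧ ∃ m : k, m ≠ 0 ∧ e - m • v ∈ Q) :
    IsAdmissible (subquot (ρ.comp (fixedPoints σ).subtype) P Q hP hQ) := by
  refine ⟨fun x => ?_, fun K hKo hKc => ?_⟩
  · obtain ⟨v, rfl⟩ := Submodule.Quotient.mk_surjective _ x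
    have h1 : IsOpen ((stabilizer ρ (v : V)).subgroupOf (fixedPoints σ) : Set (fixedPoints σ)) :=
      (hρ.1 (v : V)).preimage continuous_subtype_val
    refine isOpen_stabilizer h1 fun g hg => ?_
    rw [Subgroup.mem_subgroupOf] at hg
    change Submodule.Quotient.mk _ = Submodule.Quotient.mk _
    congr 1
    exact Subtype.ext hg
  · obtain ⟨W, hWo, hW⟩ := isOpen_induced_iff.1 hKo
    have h1 : (1 : G) ∈ W := by
      have : (1 : fixedPoints σ) ∈ (Subtype.val ⁻¹' W : Set (fixedPoints σ)) := by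
        rw [hW]; exact K.one_mem
      exact this
    obtain ⟨U₁, hU₁, hU₁W⟩ := hG (W ∩ K₀) ((hWo.inter hK₀).mem_nhds ⟨h1, K₀.one_mem⟩)
    let U := stab σ U₁
    have hUo : IsOpen (U : Set G) := isOpen_stab hc hσ _ hU₁
    have hUK : U ≤ K₀ := fun g hg => (hU₁W (stab_le σ _ hg)).2
    have hUs : ∀ g, σ g ∈ U ↔ g ∈ U := map_mem_stab hσ _
    have hUcl : IsClosed (U : Set G) := Subgroup.isClosed_of_isOpen U hUo
    have hUc : IsCompact (U : Set G) := hK₀c.of_isClosed_subset hUcl hUK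
    have hfd : FiniteDimensional k (fixedBy ρ U) := hρ.2 U hUo hUc
    let D : Submodule k V := fixedBy ρ U ⊓ P
    have hD : FiniteDimensional k D := Submodule.finiteDimensional_of_le inf_le_left
    let φ : D →ₗ[k] P ⧸ Q.submoduleOf P :=
      (Q.submoduleOf P).mkQ ∘ₗ (Submodule.inclusion (inf_le_right : D ≤ P))
    refine Submodule.finiteDimensional_of_le (S₂ := LinearMap.range φ) ?_
    intro x hx
    obtain ⟨v, rfl⟩ := Submodule.Quotient.mk_surjective _ x
    have h2 : ∀ u ∈ U, σ u = u → ρ u (v : V) - v ∈ Q := by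
      intro u hu hσu
      have h3 : (⟨u, hσu⟩ : fixedPoints σ) ∈ K := by
        have : (⟨u, hσu⟩ : fixedPoints σ) ∈ (Subtype.val ⁻¹' W : Set (fixedPoints σ)) :=
          (hU₁W (stab_le σ _ hu)).1
        rw [hW] at this
        exact this
      have h4 := hx _ h3
      have h5 : Submodule.Quotient.mk (p := Q.submoduleOf P)
          (⟨ρ u v, hP ⟨u, hσu⟩ v v.2⟩ : P) = Submodule.Quotient.mk v := h4
      rw [Submodule.Quotient.eq] at h5
      exact h5
    obtain ⟨e, heP, heU, m, hm, hem⟩ := star U hUo hUK hUs v v.2 h2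
    refine ⟨m⁻¹ • ⟨e, heU, heP⟩, ?_⟩
    rw [map_smul]
    have h6 : φ ⟨e, heU, heP⟩ = m • Submodule.Quotient.mk v := by
      rw [← Submodule.Quotient.mk_smul]
      refine (Submodule.Quotient.eq _).2 ?_
      exact hem
    rw [h6, smul_smul, inv_mul_cancel₀ hm, one_smul]

theorem exists_fintype {U U' K₀ : Subgroup G} (hU'o : IsOpen (U' : Set G)) (hle : U' ≤ U)
    (hUK : U ≤ K₀)
    (hcop : ∀ W : Subgroup G, IsOpen (W : Set G) → W ≤ K₀ → ¬ p ∣ W.relIndex K₀) :
    Finite (U ⧸ U'.subgroupOf U) ∧ ¬ p ∣ Nat.card (U ⧸ U'.subgroupOf U) := by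
  have h : ¬ p ∣ Nat.card (U ⧸ U'.subgroupOf U) := by
    intro h
    apply hcop U' hU'o (hle.trans hUK)
    rw [← Subgroup.relIndex_mul_relIndex U' U K₀ hle hUK]
    exact Dvd.dvd.mul_right h _
  refine ⟨Nat.finite_of_card_ne_zero fun h0 => h ?_, h⟩
  rw [h0]
  exact dvd_zero p

theorem cop_of_le {U K₀ : Subgroup G} (hUK : U ≤ K₀)
    (hcop : ∀ W : Subgroup G, IsOpen (W : Set G) → W ≤ K₀ → ¬ p ∣ W.relIndex K₀) :
    ∀ W : Subgroup G, IsOpen (W : Set G) → W ≤ U → ¬ p ∣ W.relIndex U := by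
  intro W hWo hWU h
  apply hcop W hWo (hWU.trans hUK)
  rw [← Subgroup.relIndex_mul_relIndex W U K₀ hWU hUK]
  exact Dvd.dvd.mul_right h _

theorem pow_iterate (h : Extends p σ ρ S) (i : ℕ) (g : G) (v : V) :
    (S ^ i) (ρ g v) = ρ (σ^[i] g) ((S ^ i) v) := by
  induction i with
  | zero => rfl
  | succ i ih =>
    rw [pow_succ', Module.End.mul_apply, ih, h.comm, Module.End.mul_apply, iterate_succ_apply']

/-- common part of the two cases -/
theorem star_aux [T2Space G] (hc : Continuous σ) (hσ : ∀ g, σ^[p] g = g)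
    (hG : ∀ N ∈ 𝓝 (1 : G), ∃ W : Subgroup G, IsOpen (W : Set G) ∧ (W : Set G) ⊆ N)
    (K₀ : Subgroup G) (hK₀c : IsCompact (K₀ : Set G))
    (hcop : ∀ W : Subgroup G, IsOpen (W : Set G) → W ≤ K₀ → ¬ p ∣ W.relIndex K₀)
    (hρ : IsSmooth ρ) (Q : Submodule k V)
    (U : Subgroup G) (hUo : IsOpen (U : Set G)) (hUK : U ≤ K₀) (hU : ∀ g, σ g ∈ U ↔ g ∈ U)
    (v : V) (hv : ∀ u ∈ U, σ u = u → ρ u v - v ∈ Q)
    (horb : ∀ u : G, ∑ i ∈ range p, ρ (σ^[i] u) v ∈ Q) :
    ∃ U' : Subgroup G, ∃ _ : Fintype (U ⧸ U'.subgroupOf U), U' ≤ U ∧ (∀ g, σ g ∈ U' ↔ g ∈ U') ∧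
      (∀ g ∈ U', ρ g v = v) ∧ ∃ m : k, m ≠ 0 ∧ avg ρ U U' v - m • v ∈ Q := by
  let U' : Subgroup G := stab σ (stabilizer ρ v ⊓ U)
  have hU'o : IsOpen (U' : Set G) := isOpen_stab hc hσ _ ((hρ v).inter hUo)
  have hU'U : U' ≤ U := (stab_le σ _).trans inf_le_right
  have hU's : ∀ g, σ g ∈ U' ↔ g ∈ U' := map_mem_stab hσ _
  have hU'v : ∀ g ∈ U', ρ g v = v := fun g hg => (stab_le σ _ hg).1
  obtain ⟨hfin, hcard⟩ := exists_fintype hU'o hU'U hUK hcop
  have := Fintype.ofFinite (U ⧸ U'.subgroupOf U)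
  refine ⟨U', this, hU'U, hU's, hU'v, (Fintype.card (U ⧸ U'.subgroupOf U) : k), ?_, ?_⟩
  · rw [Nat.card_eq_fintype_card] at hcard
    intro h0
    exact hcard ((CharP.cast_eq_zero_iff k p _).1 h0)
  · refine sum_sub_mem (p := p) (tau_iterate_p hU hU's hσ) _ Q ?_ v ?_
    · intro y _
      obtain ⟨u, rfl⟩ := QuotientGroup.mk_surjective y
      have h1 : ∑ i ∈ range p, fF ρ U U' v ((tau hU hU's)^[i] (QuotientGroup.mk u)) =
          ∑ i ∈ range p, ρ (σ^[i] u) v :=
        sum_congr rfl fun i _ => by rw [tau_iterate_mk, fF_mk hU'v]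
      rw [h1]
      exact horb u
    · intro y hy
      obtain ⟨u, rfl⟩ := QuotientGroup.mk_surjective y
      rw [tau_mk, eq_comm, QuotientGroup.eq, Subgroup.mem_subgroupOf] at hy
      have hUcl : IsClosed (U : Set G) := Subgroup.isClosed_of_isOpen U hUo
      have hUc : IsCompact (U : Set G) := hK₀c.of_isClosed_subset hUcl hUK
      obtain ⟨w, hw, hfix⟩ := exists_fixed_rep hc hσ hG hUc hU'o hU'U hU's (cop_of_le hUK hcop)
        (u := (u : G)) hy
      have h2 : (QuotientGroup.mk u : U ⧸ U'.subgroupOf U) =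
          QuotientGroup.mk (⟨u * w, U.mul_mem u.2 (hU'U hw)⟩ : U) := by
        rw [QuotientGroup.eq, Subgroup.mem_subgroupOf]
        change (u : G)⁻¹ * (u * w) ∈ U'
        rw [inv_mul_cancel_left]
        exact hw
      rw [h2, fF_mk hU'v]
      exact hv _ (U.mul_mem u.2 (hU'U hw)) hfix

/-- `S` commutes with averaging -/
theorem S_avg (h : Extends p σ ρ S) {U U' : Subgroup G} [Fintype (U ⧸ U'.subgroupOf U)]
    (hσ : ∀ g, σ^[p] g = g)
    (hU : ∀ g, σ g ∈ U ↔ g ∈ U) (hU' : ∀ g, σ g ∈ U' ↔ g ∈ U') {v : V}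
    (hv : ∀ g ∈ U', ρ g v = v) : S (avg ρ U U' v) = avg ρ U U' (S v) := by
  have hSv : ∀ g ∈ U', ρ g (S v) = S v := by
    intro g hg
    have h1 : g = σ (σ^[p - 1] g) := by
      rw [← Function.iterate_succ_apply' (⇑σ) (p - 1) g, Nat.succ_eq_add_one,
        Nat.sub_add_cancel hp.out.one_le, hσ]
    rw [h1, ← h.comm, hv]
    exact (iterate_mem hU' _ _).2 hg
  have h2 : ∀ x, S (fF ρ U U' v x) = fF ρ U U' (S v) (tau hU hU' x) := by
    intro x
    obtain ⟨u, rfl⟩ := QuotientGroup.mk_surjective x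
    rw [fF_mk hv, tau_mk, fF_mk hSv, h.comm]
  have hinj : Function.Injective (tau hU hU') := by
    intro x y hxy
    have h3 := tau_iterate_p hU hU' hσ
    have h4 : ∀ z, z = (tau hU hU')^[p - 1] (tau hU hU' z) := by
      intro z
      rw [← iterate_succ_apply, Nat.succ_eq_add_one, Nat.sub_add_cancel hp.out.one_le, h3]
      rfl
    rw [h4 x, hxy, ← h4 y]
  have hbij : Function.Bijective (tau hU hU') := Finite.injective_iff_bijective.1 hinj
  unfold avg
  rw [map_sum, Finset.sum_congr rfl fun x _ => h2 x]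
  exact Function.Bijective.sum_comp hbij (fF ρ U U' (S v))

theorem pow_fixed (h : Extends p σ ρ S) {U' : Subgroup G} (hσ : ∀ g, σ^[p] g = g)
    (hU' : ∀ g, σ g ∈ U' ↔ g ∈ U') {v : V} (hv : ∀ g ∈ U', ρ g v = v) (i : ℕ) :
    ∀ g ∈ U', ρ g ((S ^ i) v) = (S ^ i) v := by
  induction i with
  | zero => exact hv
  | succ i ih =>
    intro g hg
    have h1 : g = σ (σ^[p - 1] g) := by
      rw [← Function.iterate_succ_apply' (⇑σ) (p - 1) g, Nat.succ_eq_add_one,
        Nat.sub_add_cancel hp.out.one_le, hσ]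
    rw [pow_succ', Module.End.mul_apply]
    conv_lhs => rw [h1]
    rw [← h.comm, ih]
    exact (iterate_mem hU' _ _).2 hg

theorem pow_avg (h : Extends p σ ρ S) {U U' : Subgroup G} [Fintype (U ⧸ U'.subgroupOf U)]
    (hσ : ∀ g, σ^[p] g = g)
    (hU : ∀ g, σ g ∈ U ↔ g ∈ U) (hU' : ∀ g, σ g ∈ U' ↔ g ∈ U') {v : V}
    (hv : ∀ g ∈ U', ρ g v = v) (i : ℕ) : (S ^ i) (avg ρ U U' v) = avg ρ U U' ((S ^ i) v) := by
  induction i with
  | zero => rfl
  | succ i ih =>
    rw [pow_succ', Module.End.mul_apply, ih, S_avg h hσ hU hU' (pow_fixed h hσ hU' hv i),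
      Module.End.mul_apply]

variable [T2Space G] (hc : Continuous σ) (hσ : ∀ g, σ^[p] g = g)
    (hG : ∀ N ∈ 𝓝 (1 : G), ∃ W : Subgroup G, IsOpen (W : Set G) ∧ (W : Set G) ⊆ N)
    (K₀ : Subgroup G) (hK₀ : IsOpen (K₀ : Set G)) (hK₀c : IsCompact (K₀ : Set G))
    (hcop : ∀ W : Subgroup G, IsOpen (W : Set G) → W ≤ K₀ → ¬ p ∣ W.relIndex K₀)
    (hρ : IsAdmissible ρ)

include hc hσ hG hK₀ hK₀c hcop hρ

/-- `T⁰` of an admissible representation is admissible. -/
theorem isAdmissible_T0 (h : Extends p σ ρ S) : IsAdmissible (T0rep h) := by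
  refine isAdmissible_subquot hc hσ hG K₀ hK₀ hK₀c hρ _ _ _ _ ?_
  intro U hUo hUK hU v hvP hv
  rw [LinearMap.mem_ker, LinearMap.sub_apply, Module.End.one_apply, sub_eq_zero] at hvP
  have hpow : ∀ i : ℕ, (S ^ i) v = v := by
    intro i
    induction i with
    | zero => rfl
    | succ i ih => rw [pow_succ', Module.End.mul_apply, ih, ← hvP]
  obtain ⟨U', hft, hU'U, hU's, hU'v, m, hm, hmQ⟩ := star_aux hc hσ hG K₀ hK₀c hcop hρ.1 _ U hUo
    hUK hU v hv (by
      intro u
      refine ⟨ρ u v, ?_⟩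
      unfold normEnd
      rw [LinearMap.sum_apply]
      refine Finset.sum_congr rfl fun i _ => ?_
      rw [pow_iterate h, hpow])
  refine ⟨avg ρ U U' v, ?_, avg_mem hU'v, m, hm, hmQ⟩
  rw [LinearMap.mem_ker, LinearMap.sub_apply, Module.End.one_apply, S_avg h hσ hU hU's hU'v,
    ← hvP, sub_self]

/-- `T¹` of an admissible representation is admissible. -/
theorem isAdmissible_T1 (h : Extends p σ ρ S) : IsAdmissible (T1rep h) := by
  refine isAdmissible_subquot hc hσ hG K₀ hK₀ hK₀c hρ _ _ _ _ ?_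
  intro U hUo hUK hU v hvP hv
  rw [LinearMap.mem_ker] at hvP
  have hSpow : ∀ (i : ℕ) (w : V), (S ^ i) w - w ∈ LinearMap.range (1 - S) := by
    intro i
    induction i with
    | zero => intro w; simp
    | succ i ih =>
      intro w
      have h1 := ih w
      have h2 : (S ^ (i + 1)) w - w = (1 - S) (-((S ^ i) w)) + ((S ^ i) w - w) := by
        rw [pow_succ', Module.End.mul_apply, LinearMap.sub_apply, Module.End.one_apply, map_neg]
        abel
      rw [h2]
      exact Submodule.add_mem _ ⟨_, rfl⟩ h1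
  obtain ⟨U', hft, hU'U, hU's, hU'v, m, hm, hmQ⟩ := star_aux hc hσ hG K₀ hK₀c hcop hρ.1 _ U hUo
    hUK hU v hv (by
      intro u
      have h1 : ∀ i ∈ range p, ρ (σ^[i] u) v - ρ u ((S ^ (p - i)) v) ∈
          LinearMap.range (1 - S) := by
        intro i hi
        have hi' : i < p := mem_range.1 hi
        have h2 : (S ^ i) (ρ u ((S ^ (p - i)) v)) = ρ (σ^[i] u) v := by
          have e1 : (S ^ i) ((S ^ (p - i)) v) = v := by
            rw [← Module.End.mul_apply, ← pow_add, Nat.add_sub_cancel' hi'.le, h.pow]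
            rfl
          rw [pow_iterate h, e1]
        rw [← h2]
        exact hSpow i _
      have h3 := Submodule.sum_mem _ h1
      rw [Finset.sum_sub_distrib] at h3
      have h4 : ∑ i ∈ range p, ρ u ((S ^ (p - i)) v) = 0 := by
        rw [← map_sum]
        have h5 : ∑ i ∈ range p, (S ^ (p - i)) v = normEnd p S v := by
          have h6 : ∑ i ∈ range p, (S ^ (p - i)) v = ∑ i ∈ range p, (S ^ (i + 1)) v := by
            rw [← Finset.sum_range_reflect]
            refine Finset.sum_congr rfl fun i hi => ?_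
            have hi' : i < p := mem_range.1 hi
            congr 2
            omega
          have h7 : ∑ i ∈ range (p + 1), (S ^ i) v = ∑ i ∈ range p, (S ^ (i + 1)) v + (S ^ 0) v :=
            Finset.sum_range_succ' _ _
          rw [Finset.sum_range_succ, h.pow, pow_zero] at h7
          rw [h6, normEnd, LinearMap.sum_apply]
          exact (add_right_cancel h7).symm
        rw [h5, hvP, map_zero]
      rwa [h4, sub_zero] at h3)
  refine ⟨avg ρ U U' v, ?_, avg_mem hU'v, m, hm, hmQ⟩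
  rw [LinearMap.mem_ker, normEnd, LinearMap.sum_apply]
  rw [Finset.sum_congr rfl fun i _ => pow_avg h hσ hU hU's hU'v i]
  unfold avg
  rw [Finset.sum_comm]
  refine Finset.sum_eq_zero fun x _ => ?_
  unfold fF
  rw [← map_sum]
  have h8 : ∑ i ∈ range p, (S ^ i) v = normEnd p S v := by rw [normEnd, LinearMap.sum_apply]
  rw [h8, hvP, map_zero]

end abstract

end Pool.Agent.Q21.TC
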