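import Mathlib

set_option autoImplicit false

namespace Pool.Agent.Q21.TC

open Finset Function

variable {p : ℕ} [hp : Fact p.Prime] {X : Type*} {τ : X → X}

/-- Sums over finite `τ`-stable sets without fixed points are sums of orbit sums. -/
theorem sum_mem_of_orbits {A : Type*} [AddCommGroup A] (hτ : τ^[p] = id) (f : X → A)
    (Q : AddSubgroup A) (hQ : ∀ y, τ y ≠ y → ∑ i ∈ range p, f (τ^[i] y) ∈ Q) (Y : Finset X) :
    (∀ y ∈ Y, τ y ∈ Y) → (∀ y ∈ Y, τ y ≠ y) → ∑ y ∈ Y, f y ∈ Q := by
  classical
  induction Y using Finset.strongInduction with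
  | H Y ih =>
    intro hst hfix
    rcases Y.eq_empty_or_nonempty with rfl | ⟨y, hy⟩
    · simp
    have hper : IsPeriodicPt τ p y := by
      change τ^[p] y = y
      rw [hτ]; rfl
    have hmin : minimalPeriod τ y = p := by
      rcases (Nat.dvd_prime hp.out).1 hper.minimalPeriod_dvd with h | h
      · exact absurd (minimalPeriod_eq_one_iff_isFixedPt.1 h) (hfix y hy)
      · exact h
    have hinj : Set.InjOn (fun i => τ^[i] y) (range p : Set ℕ) := by
      have h1 := iterate_injOn_Iio_minimalPeriod (f := τ) (x := y)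
      rw [hmin] at h1
      intro a ha b hb hab
      exact h1 (by simpa using ha) (by simpa using hb) hab
    let O : Finset X := (range p).image (fun i => τ^[i] y)
    have hO : ∀ j : ℕ, τ^[j] y ∈ O := by
      intro j
      have h2 := hper.iterate_mod_apply j
      rw [← h2]
      exact mem_image_of_mem _ (mem_range.2 (Nat.mod_lt _ hp.out.pos))
    have hOY : O ⊆ Y := by
      intro z hz
      obtain ⟨i, hi, rfl⟩ := mem_image.1 hz
      clear hz hi
      induction i with
      | zero => exact hy
      | succ i ihi =>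
        rw [iterate_succ_apply']
        exact hst _ ihi
    have hsumO : ∑ z ∈ O, f z ∈ Q := by
      rw [sum_image hinj]
      exact hQ y (hfix y hy)
    have hrest : ∑ z ∈ Y \ O, f z ∈ Q := by
      apply ih
      · refine Finset.ssubset_iff_subset_ne.2 ⟨sdiff_subset, fun h => ?_⟩
        have h3 : y ∈ Y \ O := by rw [h]; exact hy
        exact (mem_sdiff.1 h3).2 (hO 0)
      · intro z hz
        rw [mem_sdiff] at hz ⊢
        refine ⟨hst z hz.1, fun h => hz.2 ?_⟩
        obtain ⟨i, _, hi⟩ := mem_image.1 h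
        have h4 : z = τ^[p - 1 + i] y := by
          have h5 : τ^[p] z = z := by rw [hτ]; rfl
          have h6 : τ^[p] z = τ^[p - 1] (τ z) := by
            rw [← iterate_succ_apply, Nat.succ_eq_add_one, Nat.sub_add_cancel hp.out.one_le]
          rw [← h5, h6, ← hi, ← iterate_add_apply]
        rw [h4]
        exact hO _
      · intro z hz
        exact hfix z (mem_sdiff.1 hz).1
    rw [← sum_sdiff hOY]
    exact Q.add_mem hrest hsumO

theorem card_dvd_of_no_fixed (hτ : τ^[p] = id) (Y : Finset X) (h1 : ∀ y ∈ Y, τ y ∈ Y)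
    (h2 : ∀ y ∈ Y, τ y ≠ y) : p ∣ Y.card := by
  have h := sum_mem_of_orbits (A := ZMod p) hτ (fun _ => (1 : ZMod p)) ⊥ (by
    intro y _
    simp) Y h1 h2
  rw [AddSubgroup.mem_bot] at h
  simp only [sum_const, nsmul_eq_mul, mul_one] at h
  exact (ZMod.natCast_eq_zero_iff _ _).1 h

/-- If `p ∤ |X|` and `τ^p = 1` then `τ` has a fixed point. -/
theorem exists_fixed [Finite X] (hτ : τ^[p] = id) (hX : ¬ p ∣ Nat.card X) : ∃ x, τ x = x := by
  classical
  have := Fintype.ofFinite X
  by_contra hcon
  push Not at hcon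
  apply hX
  rw [Nat.card_eq_fintype_card]
  exact card_dvd_of_no_fixed hτ univ (fun _ _ => mem_univ _) (fun y _ => hcon y)

/-- The sum over `X` of `f` is `|X| v` modulo `Q`, if `f` is `v` modulo `Q` on fixed points and orbit
sums are in `Q`. -/
theorem sum_sub_mem {k A : Type*} [Field k] [CharP k p] [AddCommGroup A] [Module k A] [Fintype X]
    (hτ : τ^[p] = id) (f : X → A) (Q : Submodule k A)
    (hQ : ∀ y, τ y ≠ y → ∑ i ∈ range p, f (τ^[i] y) ∈ Q) (v : A)
    (hv : ∀ y, τ y = y → f y - v ∈ Q) : ∑ x, f x - (Fintype.card X : k) • v ∈ Q := by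
  classical
  have h1 : ∑ x ∈ univ.filter (fun x => τ x ≠ x), f x ∈ Q := by
    refine sum_mem_of_orbits hτ f Q.toAddSubgroup hQ _ ?_ ?_
    · intro y hy
      simp only [mem_filter, mem_univ, true_and] at hy ⊢
      intro h
      apply hy
      have h5 : ∀ z, τ^[p] z = z := fun z => by rw [hτ]; rfl
      have h6 : ∀ z, τ^[p] z = τ^[p - 1] (τ z) := fun z => by
        rw [← iterate_succ_apply, Nat.succ_eq_add_one, Nat.sub_add_cancel hp.out.one_le]
      have h7 := h6 (τ y)
      rw [h, ← h6 y, h5] at h7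
      rw [h5] at h7
      exact h7
    · intro y hy
      exact (mem_filter.1 hy).2
  have h2 : p ∣ (univ.filter (fun x => τ x ≠ x)).card := by
    refine card_dvd_of_no_fixed hτ _ ?_ ?_
    · intro y hy
      simp only [mem_filter, mem_univ, true_and] at hy ⊢
      intro h
      apply hy
      have h5 : ∀ z, τ^[p] z = z := fun z => by rw [hτ]; rfl
      have h6 : ∀ z, τ^[p] z = τ^[p - 1] (τ z) := fun z => by
        rw [← iterate_succ_apply, Nat.succ_eq_add_one, Nat.sub_add_cancel hp.out.one_le]
      have h7 := h6 (τ y)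
      rw [h, ← h6 y, h5] at h7
      rw [h5] at h7
      exact h7
    · intro y hy
      exact (mem_filter.1 hy).2
  have h3 : ∑ x ∈ univ.filter (fun x => τ x = x), (f x - v) ∈ Q :=
    Q.sum_mem fun x hx => hv x (mem_filter.1 hx).2
  have h4 : ∑ x, f x = ∑ x ∈ univ.filter (fun x => τ x = x), f x +
      ∑ x ∈ univ.filter (fun x => τ x ≠ x), f x :=
    (sum_filter_add_sum_filter_not univ _ _).symm
  have h5 : (Fintype.card X : k) = ((univ.filter (fun x => τ x = x)).card : k) := by
    have h6 := card_filter_add_card_filter_not (s := (univ : Finset X)) (fun x => τ x = x)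
    have h7 : ((univ.filter (fun x => τ x ≠ x)).card : k) = 0 := (CharP.cast_eq_zero_iff k p _).2 h2
    rw [← card_univ, ← h6]
    push_cast
    rw [h7, add_zero]
  rw [h4, h5]
  rw [sum_sub_distrib, sum_const] at h3
  have h8 : ∑ x ∈ univ.filter (fun x => τ x = x), f x +
      ∑ x ∈ univ.filter (fun x => τ x ≠ x), f x -
      ((univ.filter (fun x => τ x = x)).card : k) • v =
      (∑ x ∈ univ.filter (fun x => τ x = x), f x -
        (univ.filter (fun x => τ x = x)).card • v) +
      ∑ x ∈ univ.filter (fun x => τ x ≠ x), f x := by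
    rw [Nat.cast_smul_eq_nsmul]
    abel
  rw [h8]
  exact Q.add_mem h3 h1

end Pool.Agent.Q21.TC
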